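import Pool.Agent.W541.DL.Stm

/-!
# Project DL: decorrelation before the limit
-/

set_option autoImplicit false

namespace Pool.Agent.W509.DL.COVN

open MeasureTheory ProbabilityTheory Filter Topology Pool.Agent.W541.DL

theorem cl_abs {A : ℝ} (hA : 0 ≤ A) (v : ℝ) : |cl A v| ≤ A := by
  unfold cl
  rw [abs_le]
  exact ⟨le_max_left _ _, max_le (by linarith) (min_le_left _ _)⟩

theorem cl_of_le {A v : ℝ} (hA : 0 ≤ A) (h : v ≤ -A) : cl A v = -A := by
  unfold cl
  rw [min_eq_right (by linarith), max_eq_left h]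

theorem cl_meas (A : ℝ) : Measurable (cl A) := by
  unfold cl
  fun_prop

section Abs

variable {Ω : Type} [MeasurableSpace Ω] (P : Measure Ω) [IsProbabilityMeasure P]

theorem int_bdd (f : Ω → ℝ) (hf : Measurable f) (C : ℝ) (hC : ∀ ω, |f ω| ≤ C) :
    Integrable f P :=
  Integrable.of_bound hf.aestronglyMeasurable C (Filter.Eventually.of_forall hC)

theorem abs_int_le (f : Ω → ℝ) (_hf : Measurable f) (C : ℝ) (hC : ∀ ω, |f ω| ≤ C) :
    |∫ ω, f ω ∂P| ≤ C := by
  have h := norm_integral_le_of_norm_le_const (μ := P) (f := f) (C := C)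
    (Filter.Eventually.of_forall hC)
  simpa using h

theorem diff_le (f g : Ω → ℝ) (hf : Measurable f) (hg : Measurable g) (C : ℝ)
    (hC : ∀ ω, |f ω - g ω| ≤ C) (E : Set Ω) (hE : MeasurableSet E)
    (h : ∀ ω ∉ E, f ω = g ω) : ∫ ω, |f ω - g ω| ∂P ≤ C * P.real E := by
  have h1 : ∀ ω, |f ω - g ω| ≤ E.indicator (fun _ => C) ω := by
    intro ω
    by_cases hω : ω ∈ E
    · rw [Set.indicator_of_mem hω]
      exact hC ω
    · rw [Set.indicator_of_notMem hω, h ω hω, sub_self, abs_zero]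
  calc ∫ ω, |f ω - g ω| ∂P ≤ ∫ ω, E.indicator (fun _ => C) ω ∂P := by
        refine integral_mono ?_ ?_ h1
        · exact int_bdd P _ ((hf.sub hg).abs) C (fun ω => by rw [abs_abs]; exact hC ω)
        · exact (integrable_const C).indicator hE
    _ = C * P.real E := by
        rw [integral_indicator_const C hE, smul_eq_mul, mul_comm]

theorem decor (A : ℝ) (hA : 0 ≤ A) (D D' L L' : Ω → ℝ) (mD : Measurable D) (mD' : Measurable D')
    (mL : Measurable L) (mL' : Measurable L') (bD : ∀ ω, |D ω| ≤ A) (bD' : ∀ ω, |D' ω| ≤ A)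
    (bL : ∀ ω, |L ω| ≤ A) (bL' : ∀ ω, |L' ω| ≤ A) (E E' : Set Ω) (hE : MeasurableSet E)
    (hE' : MeasurableSet E') (h1 : ∀ ω ∉ E, D ω = L ω) (h2 : ∀ ω ∉ E', D' ω = L' ω)
    (hI : IndepFun L L' P) :
    |(∫ ω, D ω * D' ω ∂P) - (∫ ω, D ω ∂P) * ∫ ω, D' ω ∂P| ≤
      4 * A ^ 2 * (P.real E + P.real E') := by
  have iD := int_bdd P D mD A bD
  have iD' := int_bdd P D' mD' A bD'
  have iL := int_bdd P L mL A bL
  have iL' := int_bdd P L' mL' A bL'
  have b2 : ∀ a b : ℝ, |a| ≤ A → |b| ≤ A → |a - b| ≤ 2 * A := by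
    intro a b ha hb
    rw [abs_le] at *
    constructor <;> linarith [ha.1, ha.2, hb.1, hb.2]
  have d1 := diff_le P D L mD mL (2 * A) (fun ω => b2 _ _ (bD ω) (bL ω)) E hE h1
  have d2 := diff_le P D' L' mD' mL' (2 * A) (fun ω => b2 _ _ (bD' ω) (bL' ω)) E' hE' h2
  have e1 : |(∫ ω, D ω ∂P) - ∫ ω, L ω ∂P| ≤ 2 * A * P.real E := by
    rw [← integral_sub iD iL]
    exact (abs_integral_le_integral_abs).trans d1
  have e2 : |(∫ ω, D' ω ∂P) - ∫ ω, L' ω ∂P| ≤ 2 * A * P.real E' := by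
    rw [← integral_sub iD' iL']
    exact (abs_integral_le_integral_abs).trans d2
  have bm : ∀ a b : ℝ, |a| ≤ A → |b| ≤ A → |a * b| ≤ A * A := by
    intro a b ha hb
    rw [abs_mul]
    exact mul_le_mul ha hb (abs_nonneg _) hA
  have iDD : Integrable (fun ω => D ω * D' ω) P :=
    int_bdd P _ (mD.mul mD') (A * A) (fun ω => bm _ _ (bD ω) (bD' ω))
  have iLL : Integrable (fun ω => L ω * L' ω) P :=
    int_bdd P _ (mL.mul mL') (A * A) (fun ω => bm _ _ (bL ω) (bL' ω))
  have iA1 : Integrable (fun ω => |D ω - L ω|) P := (iD.sub iL).abs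
  have iA2 : Integrable (fun ω => |D' ω - L' ω|) P := (iD'.sub iL').abs
  have e3 : |(∫ ω, D ω * D' ω ∂P) - ∫ ω, L ω * L' ω ∂P| ≤
      A * (2 * A * P.real E') + A * (2 * A * P.real E) := by
    rw [← integral_sub iDD iLL]
    refine (abs_integral_le_integral_abs).trans ?_
    calc ∫ ω, |D ω * D' ω - L ω * L' ω| ∂P
        ≤ ∫ ω, (A * |D' ω - L' ω| + A * |D ω - L ω|) ∂P := by
          refine integral_mono (iDD.sub iLL).abs ((iA2.const_mul A).add (iA1.const_mul A)) ?_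
          intro ω
          have : D ω * D' ω - L ω * L' ω = D ω * (D' ω - L' ω) + L' ω * (D ω - L ω) := by ring
          simp only
          rw [this]
          refine (abs_add_le _ _).trans ?_
          rw [abs_mul, abs_mul]
          exact add_le_add (mul_le_mul_of_nonneg_right (bD ω) (abs_nonneg _))
            (mul_le_mul_of_nonneg_right (bL' ω) (abs_nonneg _))
      _ = A * ∫ ω, |D' ω - L' ω| ∂P + A * ∫ ω, |D ω - L ω| ∂P := by
          rw [integral_add (iA2.const_mul A) (iA1.const_mul A), integral_const_mul,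
            integral_const_mul]
      _ ≤ _ := add_le_add (mul_le_mul_of_nonneg_left d2 hA) (mul_le_mul_of_nonneg_left d1 hA)
  have e4 : ∫ ω, L ω * L' ω ∂P = (∫ ω, L ω ∂P) * ∫ ω, L' ω ∂P :=
    hI.integral_fun_mul_eq_mul_integral mL.aestronglyMeasurable mL'.aestronglyMeasurable
  have e5 : |(∫ ω, L ω ∂P) * (∫ ω, L' ω ∂P) - (∫ ω, D ω ∂P) * ∫ ω, D' ω ∂P| ≤
      A * (2 * A * P.real E') + A * (2 * A * P.real E) := by
    have : (∫ ω, L ω ∂P) * (∫ ω, L' ω ∂P) - (∫ ω, D ω ∂P) * ∫ ω, D' ω ∂P =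
        -((∫ ω, D ω ∂P) * ((∫ ω, D' ω ∂P) - ∫ ω, L' ω ∂P)) -
          (∫ ω, L' ω ∂P) * ((∫ ω, D ω ∂P) - ∫ ω, L ω ∂P) := by ring
    rw [this]
    refine (abs_sub _ _).trans ?_
    rw [abs_neg, abs_mul, abs_mul]
    exact add_le_add (mul_le_mul (abs_int_le P D mD A bD) e2 (abs_nonneg _) hA)
      (mul_le_mul (abs_int_le P L' mL' A bL') e1 (abs_nonneg _) hA)
  have e6 : (∫ ω, D ω * D' ω ∂P) - (∫ ω, D ω ∂P) * ∫ ω, D' ω ∂P =
      ((∫ ω, D ω * D' ω ∂P) - ∫ ω, L ω * L' ω ∂P) +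
        ((∫ ω, L ω ∂P) * (∫ ω, L' ω ∂P) - (∫ ω, D ω ∂P) * ∫ ω, D' ω ∂P) := by
    rw [e4]
    ring
  rw [e6]
  refine (abs_add_le _ _).trans ((add_le_add e3 e5).trans (le_of_eq ?_))
  ring

end Abs

theorem main (hX : S_EXITP) (hC : S_CORR) (hM : S_MEASK) (hL : S_CLE) : S_COVN := by
  intro Ω _ P W c A u x y hW hT hA hu h2 hxy
  have hP : IsProbabilityMeasure P := hW.gauss.isProbabilityMeasure
  filter_upwards [hX Ω P W c A u hW hT hA hu h2, Filter.eventually_ge_atTop 1] with n hn hn1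
  have hn0 : (0 : ℝ) < n := by exact_mod_cast hn1
  set N3 : ℝ := (n : ℝ) ^ ((1 : ℝ) / 3) with hN3
  have hN3p : 0 < N3 := Real.rpow_pos_of_pos hn0 _
  have hN3n : N3 ≤ n := by
    have h1 : (1 : ℝ) ≤ n := by exact_mod_cast hn1
    calc N3 ≤ (n : ℝ) ^ (1 : ℝ) := Real.rpow_le_rpow_of_exponent_le h1 (by norm_num)
      _ = n := Real.rpow_one _
  set β : ℝ := 2 * u / N3 with hβ
  have hβ0 : 0 ≤ β := by positivity
  have hmK : ∀ K : Set (ℕ → ℝ), Measurable (fun ω => supK (env W ω) n K) := fun K =>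
    hM Ω inferInstance W n K hW.cont (fun τ _ k _ => (hW.meas _ _).sub (hW.meas _ _))
  -- the variables
  set φ : ℝ → ℝ := fun v => cl A ((n : ℝ) ^ ((1 : ℝ) / 6) * (v - 2 * Real.sqrt n)) with hφ
  have hφm : Measurable φ := (cl_meas A).comp (by fun_prop)
  have hpre : ∀ (z : ℝ) (ω : Ω), preSheet (env W ω) n z z =
      (n : ℝ) ^ ((1 : ℝ) / 6) *
        (supK (env W ω) n (paths n (2 * z / N3) (1 + 2 * z / N3)) - 2 * Real.sqrt n) := by
    intro z ω
    unfold preSheet blpp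
    rw [sub_self, mul_zero, zero_mul, sub_zero]
  have hmpre : ∀ z : ℝ, Measurable (fun ω => preSheet (env W ω) n z z) := by
    intro z
    simp only [hpre]
    exact ((hmK _).sub_const _).const_mul _
  have hEm : ∀ z : ℝ, MeasurableSet {ω | supK (env W ω) n (corr n (2 * z / N3) β) <
      blpp (env W ω) n (2 * z / N3) (1 + 2 * z / N3) ∧ -A < preSheet (env W ω) n z z} := by
    intro z
    exact (measurableSet_lt (hmK _) (hmK _)).inter (measurableSet_lt measurable_const (hmpre z))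
  have hoff : ∀ (z : ℝ) (ω : Ω), ω ∉ {ω | supK (env W ω) n (corr n (2 * z / N3) β) <
      blpp (env W ω) n (2 * z / N3) (1 + 2 * z / N3) ∧ -A < preSheet (env W ω) n z z} →
      cl A (preSheet (env W ω) n z z) = φ (supK (env W ω) n (corr n (2 * z / N3) β)) := by
    intro z ω hω
    have hle := hL (env W ω) n (2 * z / N3) β (fun k => hW.cont k ω) hn1 hβ0
    have hp6 : (0 : ℝ) ≤ (n : ℝ) ^ ((1 : ℝ) / 6) := by positivity
    by_cases hlt : supK (env W ω) n (corr n (2 * z / N3) β) <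
      blpp (env W ω) n (2 * z / N3) (1 + 2 * z / N3)
    · have h3 : preSheet (env W ω) n z z ≤ -A := by
        by_contra hcon
        exact hω ⟨hlt, not_le.1 hcon⟩
      rw [cl_of_le hA h3]
      symm
      refine cl_of_le hA (le_trans ?_ h3)
      rw [hpre]
      refine mul_le_mul_of_nonneg_left ?_ hp6
      unfold blpp at hle
      linarith
    · have h4 : supK (env W ω) n (corr n (2 * z / N3) β) =
          blpp (env W ω) n (2 * z / N3) (1 + 2 * z / N3) := le_antisymm hle (not_lt.1 hlt)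
      rw [hφ]
      simp only
      rw [h4, hpre]
      rfl
  have hcond : 2 * x / N3 + 2 * β + 1 / n ≤ 2 * y / N3 := by
    have h5 : (1 : ℝ) / n ≤ 2 / N3 := by
      rw [div_le_div_iff₀ hn0 hN3p]
      linarith
    have h6 : 2 * x / N3 + 2 * β + 2 / N3 ≤ 2 * y / N3 := by
      rw [hβ, ← mul_div_assoc, ← add_div, ← add_div]
      exact div_le_div_of_nonneg_right (by linarith) hN3p.le
    linarith
  have hInd := hC Ω P W n (2 * x / N3) (2 * y / N3) β hW hn1 hβ0 hcond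
  have hInd2 : IndepFun (fun ω => φ (supK (env W ω) n (corr n (2 * x / N3) β)))
      (fun ω => φ (supK (env W ω) n (corr n (2 * y / N3) β))) P := hInd.comp hφm hφm
  have key := decor P A hA (fun ω => cl A (preSheet (env W ω) n x x))
    (fun ω => cl A (preSheet (env W ω) n y y))
    (fun ω => φ (supK (env W ω) n (corr n (2 * x / N3) β)))
    (fun ω => φ (supK (env W ω) n (corr n (2 * y / N3) β)))
    ((cl_meas A).comp (hmpre x)) ((cl_meas A).comp (hmpre y)) (hφm.comp (hmK _))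
    (hφm.comp (hmK _)) (fun ω => cl_abs hA _) (fun ω => cl_abs hA _) (fun ω => cl_abs hA _)
    (fun ω => cl_abs hA _) _ _ (hEm x) (hEm y) (hoff x) (hoff y) hInd2
  have p1 := hn x
  have p2 := hn y
  refine key.trans ?_
  have hA2 : 0 ≤ 4 * A ^ 2 := by positivity
  calc 4 * A ^ 2 * (_ + _) ≤ 4 * A ^ 2 *
        (8 * P.real {ω | u ^ 2 / 8 ≤ preSheet (env W ω) n 0 0} +
          8 * P.real {ω | u ^ 2 / 8 ≤ preSheet (env W ω) n 0 0}) :=
        mul_le_mul_of_nonneg_left (add_le_add p1 p2) hA2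
    _ = _ := by ring

end Pool.Agent.W509.DL.COVN
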