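import Pool.Agent.W541.DL.Stm

/-!
# Project DL: the one-point law of a full passage value
-/

set_option autoImplicit false

namespace Pool.Agent.W509.DL.ONE

open MeasureTheory ProbabilityTheory Filter Topology Pool.Agent.W541.DL

theorem blpp_self (w : ℕ → ℝ → ℝ) (n : ℕ) (s : ℝ) : blpp w n s s = 0 := by
  unfold blpp supK
  have h1 : pathVal w n '' paths n s s = {0} := by
    ext v
    simp only [Set.mem_image, Set.mem_singleton_iff]
    constructor
    · rintro ⟨τ, ⟨hm, h0, hn⟩, rfl⟩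
      unfold pathVal
      refine Finset.sum_eq_zero fun k hk => ?_
      rw [Finset.mem_range] at hk
      have a1 : τ k = s := le_antisymm (by rw [← hn]; exact hm hk.le) (by rw [← h0]; exact hm (Nat.zero_le _))
      have a2 : τ (k + 1) = s := le_antisymm (by rw [← hn]; exact hm hk)
        (by rw [← h0]; exact hm (Nat.zero_le _))
      rw [a1, a2, sub_self]
    · rintro rfl
      exact ⟨fun _ => s, ⟨monotone_const, rfl, rfl⟩, by simp [pathVal]⟩
  rw [h1, csSup_singleton]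

theorem pow_id (n : ℕ) (hn : 1 ≤ n) :
    (n : ℝ) ^ ((1 : ℝ) / 6) * Real.sqrt n = (n : ℝ) ^ ((2 : ℝ) / 3) := by
  have h : (0 : ℝ) < n := by exact_mod_cast hn
  rw [Real.sqrt_eq_rpow, ← Real.rpow_add h]
  norm_num

theorem div_sqrt (n : ℕ) (hn : 1 ≤ n) : (n : ℝ) / Real.sqrt n = Real.sqrt n := by
  have h : (0 : ℝ) < n := by exact_mod_cast hn
  rw [div_eq_iff (Real.sqrt_pos.2 h).ne', Real.mul_self_sqrt h.le]

theorem pre00 (w : ℕ → ℝ → ℝ) (n : ℕ) :
    preSheet w n 0 0 = (n : ℝ) ^ ((1 : ℝ) / 6) * (blpp w n 0 1 - 2 * Real.sqrt n) := by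
  unfold preSheet
  simp

theorem main (hL : S_LAWK) (hC : S_SCB) (hD : S_SCD) : S_ONE := by
  intro Ω _ P W n s d l hW hn hd
  rcases hd.eq_or_lt with h | h
  · subst h
    have e1 : ∀ ω, bar (env W ω) n 0 n s (s + 0) = - (n : ℝ) ^ ((2 : ℝ) / 3) := by
      intro ω
      unfold bar
      rw [add_zero, blpp_self, div_sqrt n hn, ← pow_id n hn]
      ring
    have e2 : ∀ ω, Real.sqrt 0 * preSheet (env W ω) n 0 0 -
        (n : ℝ) ^ ((2 : ℝ) / 3) * (Real.sqrt 0 - 1) ^ 2 = - (n : ℝ) ^ ((2 : ℝ) / 3) := by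
      intro ω
      rw [Real.sqrt_zero]
      ring
    simp only [e1, e2]
  · set W' : ℕ → ℝ → Ω → ℝ :=
      fun k t ω => (W (0 + k) (s + d * t) ω - W (0 + k) s ω) / Real.sqrt d with hW'
    have hB : IsBM P W' := hC Ω P W 0 s d hW h
    have hI := hL Ω P W' W n (paths n 0 1) hB hW
    have hm : MeasurableSet {v : ℝ | l ≤ (n : ℝ) ^ ((1 : ℝ) / 6) *
        (Real.sqrt d * v - Real.sqrt n * d - Real.sqrt n)} :=
      measurableSet_le measurable_const (by fun_prop)
    have h1 := hI.measure_mem_eq hm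
    have e1 : ∀ ω, bar (env W ω) n 0 n s (s + d) = (n : ℝ) ^ ((1 : ℝ) / 6) *
        (Real.sqrt d * supK (env W' ω) n (paths n 0 1) - Real.sqrt n * d - Real.sqrt n) := by
      intro ω
      unfold bar
      rw [hD (env W ω) 0 n s d h, div_sqrt n hn, add_sub_cancel_left]
      rfl
    have e2 : ∀ ω, Real.sqrt d * preSheet (env W ω) n 0 0 -
        (n : ℝ) ^ ((2 : ℝ) / 3) * (Real.sqrt d - 1) ^ 2 = (n : ℝ) ^ ((1 : ℝ) / 6) *
        (Real.sqrt d * supK (env W ω) n (paths n 0 1) - Real.sqrt n * d - Real.sqrt n) := by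
      intro ω
      rw [pre00, ← pow_id n hn]
      have h2 : Real.sqrt d * Real.sqrt d = d := Real.mul_self_sqrt h.le
      unfold blpp
      linear_combination (-(n : ℝ) ^ ((1 : ℝ) / 6) * Real.sqrt n) * h2
    simp only [e1, e2]
    unfold Measure.real
    congr 1

end Pool.Agent.W509.DL.ONE
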